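import Mathlib

set_option autoImplicit false

namespace Pool.Agent.Results.MP_c1403d_pr.Leading

open Polynomial

/-- the ring `ℚ[z, a, a⁻¹, b]` as a vector space: `(j, l, k)` is the monomial `z^j a^l b^k` -/
abbrev V : Type := (ℕ × ℤ × ℕ) →₀ ℚ

/-- the derivation with `Dz = 1`, `Da = b`, `Db = z a`, on monomials by the Leibniz rule -/
noncomputable def D : V →ₗ[ℚ] V := Finsupp.linearCombination ℚ fun m =>
  Finsupp.single (m.1 - 1, m.2.1, m.2.2) (m.1 : ℚ) +
    Finsupp.single (m.1, m.2.1 - 1, m.2.2 + 1) (m.2.1 : ℚ) +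
    Finsupp.single (m.1 + 1, m.2.1 + 1, m.2.2 - 1) (m.2.2 : ℚ)

/-- `R j k l` is the reduction of the symbol `[j, k, l]`, with `[i, 0, l - k]` written `X ^ i` -/
noncomputable def R : ℕ → ℕ → ℕ → ℚ[X]
  | j, 0, _ => X ^ j
  | j, 1, l => C ((j : ℚ) / (l - 1)) * R (j - 1) 0 (l - 1)
  | j, k + 2, l => C ((j : ℚ) / (l - 1)) * R (j - 1) (k + 1) (l - 1) +
      C (((k : ℚ) + 1) / (l - 1)) * R (j + 1) k (l - 2)

/-- `p n`: the monomial `z^j a^l b^k` of `Dⁿ (a⁻¹)` gives `z^j b^k a^(-(1 - l))` in `a⁻¹ Dⁿ (a⁻¹)`,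
which is sent to `R [j, k, 1 - l]` -/
noncomputable def p (n : ℕ) : ℚ[X] :=
  ((D ^ n) (Finsupp.single (0, -1, 0) 1)).sum fun m c => C c * R m.1 m.2.2 (1 - m.2.1).toNat

lemma R_coeff (k : ℕ) : ∀ j m : ℕ, 2 * j + k ≤ 2 * m →
    (R j k (k + 2)).coeff m = if 2 * j + k = 2 * m then 1 / ((k : ℚ) + 1) else 0 := by
  induction k using Nat.twoStepInduction with
  | zero =>
    intro j m h
    simp only [R, coeff_X_pow]
    split_ifs <;> first | omega | simp
  | one =>
    intro j m h
    simp only [R, coeff_C_mul, coeff_X_pow]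
    rw [if_neg (by omega : ¬ 2 * j + 1 = 2 * m)]
    rcases Nat.eq_zero_or_pos j with rfl | hj
    · simp
    · rw [if_neg (by omega), mul_zero]
  | more k ih0 ih1 =>
    intro j m h
    simp only [R, coeff_add, coeff_C_mul]
    have e1 : k + 2 + 2 - 1 = k + 1 + 2 := by omega
    have e2 : k + 2 + 2 - 2 = k + 2 := by omega
    rw [e1, e2, ih0 (j + 1) m (by omega), ih1 (j - 1) m (by omega)]
    have h0 : (j : ℚ) / (((k + 2 + 2 : ℕ) : ℚ) - 1) *
        (if 2 * (j - 1) + (k + 1) = 2 * m then 1 / (((k + 1 : ℕ) : ℚ) + 1) else 0) = 0 := by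
      rw [if_neg (by omega), mul_zero]
    rw [h0, zero_add]
    by_cases h2 : 2 * j + (k + 2) = 2 * m
    · rw [if_pos (by omega), if_pos h2]
      have a1 : (k : ℚ) + 1 ≠ 0 := by positivity
      have a2 : (k : ℚ) + 2 + 1 ≠ 0 := by positivity
      push_cast
      rw [show (k : ℚ) + 2 + 2 - 1 = k + 2 + 1 by ring]
      field_simp
    · rw [if_neg (by omega), if_neg h2, mul_zero]

noncomputable def red : V →ₗ[ℚ] ℚ[X] :=
  Finsupp.linearCombination ℚ fun m => R m.1 m.2.2 (1 - m.2.1).toNat

noncomputable def top (n : ℕ) : V →ₗ[ℚ] ℚ[X] :=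
  Finsupp.linearCombination ℚ fun m => if 2 * m.1 + m.2.2 = n then X ^ m.2.2 else 0

noncomputable def lam : ℚ[X] →ₗ[ℚ] ℚ :=
  (basisMonomials ℚ).constr ℚ fun k => if Even k then 1 / ((k : ℚ) + 1) else 0

lemma lam_pow (k : ℕ) : lam (X ^ k) = if Even k then 1 / ((k : ℚ) + 1) else 0 := by
  rw [X_pow_eq_monomial]
  exact (basisMonomials ℚ).constr_basis ℚ _ k

noncomputable def L : Module.End ℚ ℚ[X] :=
  LinearMap.mulLeft ℚ (1 - X ^ 2) ∘ₗ derivative - LinearMap.mulLeft ℚ X

lemma L_apply (f : ℚ[X]) : L f = (1 - X ^ 2) * derivative f - X * f := rfl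

noncomputable def S (n : ℕ) : Submodule ℚ V := Submodule.span ℚ
  {v | ∃ j k : ℕ, 2 * j + k ≤ n ∧ v = Finsupp.single (j, -((k : ℤ) + 1), k) 1}

lemma mem_S {n j k : ℕ} (l : ℤ) (c : ℚ) (h : c = 0 ∨ 2 * j + k ≤ n ∧ l = -((k : ℤ) + 1)) :
    Finsupp.single (j, l, k) c ∈ S n := by
  rcases h with rfl | ⟨h, rfl⟩
  · simp
  · rw [← mul_one c, ← smul_eq_mul, ← Finsupp.smul_single]
    exact Submodule.smul_mem _ _ (Submodule.subset_span ⟨j, k, h, rfl⟩)

lemma step {n : ℕ} {v : V} (hv : v ∈ S n) : D v ∈ S (n + 1) ∧ top (n + 1) (D v) = L (top n v) := by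
  induction hv using Submodule.span_induction with
  | zero => simp
  | add x y _ _ hx hy => simp only [map_add]; exact ⟨add_mem hx.1 hy.1, by rw [hx.2, hy.2]⟩
  | smul c x _ hx => simp only [map_smul]; exact ⟨Submodule.smul_mem _ _ hx.1, by rw [hx.2]⟩
  | mem x hx =>
    obtain ⟨j, k, h, rfl⟩ := hx
    simp only [D, Finsupp.linearCombination_single, one_smul]
    refine ⟨add_mem (add_mem (mem_S _ _ (Or.inr ⟨by omega, rfl⟩))
      (mem_S _ _ (Or.inr ⟨by omega, by push_cast; ring⟩))) (mem_S _ _ ?_), ?_⟩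
    · rcases Nat.eq_zero_or_pos k with rfl | hk
      · simp
      · exact Or.inr ⟨by omega, by omega⟩
    · simp only [map_add, top, Finsupp.linearCombination_single, one_smul]
      rw [if_neg (by omega : ¬ 2 * (j - 1) + k = n + 1), smul_zero, zero_add]
      by_cases h2 : 2 * j + k = n
      · rw [if_pos (by omega), if_pos h2, L_apply]
        cases k with
        | zero => simp
        | succ k =>
          rw [if_pos (by omega), derivative_X_pow]
          simp only [smul_eq_C_mul, Nat.add_sub_cancel]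
          push_cast
          simp only [map_neg, map_add, map_one]
          ring
      · rw [if_neg (by omega), if_neg h2]
        cases k with
        | zero => simp
        | succ k => rw [if_neg (by omega)]; simp

lemma iter (n : ℕ) : (D ^ n) (Finsupp.single (0, -1, 0) 1) ∈ S n ∧
    top n ((D ^ n) (Finsupp.single (0, -1, 0) 1)) = (L ^ n) 1 := by
  induction n with
  | zero => exact ⟨mem_S _ _ (Or.inr ⟨by omega, by simp⟩), by simp [top]⟩
  | succ n ih =>
    rw [pow_succ', pow_succ', Module.End.mul_apply, Module.End.mul_apply, ← ih.2]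
    exact step ih.1

lemma link {n : ℕ} {v : V} (hv : v ∈ S n) :
    lam (top n v) = if Even n then (red v).coeff (n / 2) else 0 := by
  induction hv using Submodule.span_induction with
  | zero => simp
  | add x y _ _ hx hy => simp only [map_add, hx, hy, coeff_add]; split_ifs <;> simp
  | smul c x _ hx => simp only [map_smul, hx, coeff_smul]; split_ifs <;> simp
  | mem x hx =>
    obtain ⟨j, k, h, rfl⟩ := hx
    simp only [top, red, Finsupp.linearCombination_single, one_smul]
    have e : (1 - -((k : ℤ) + 1)).toNat = k + 2 := by omega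
    rw [e]
    by_cases hn : Even n
    · obtain ⟨m, rfl⟩ := hn
      rw [if_pos (Even.add_self m), show (m + m) / 2 = m by omega, R_coeff k j m (by omega)]
      by_cases h2 : 2 * j + k = m + m
      · rw [if_pos h2, if_pos (by omega), lam_pow, if_pos ⟨m - j, by omega⟩]
      · rw [if_neg h2, if_neg (by omega), map_zero]
    · rw [if_neg hn]
      split_ifs with h2
      · rw [lam_pow, if_neg]
        rintro ⟨r, hr⟩
        exact hn ⟨j + r, by omega⟩
      · exact map_zero _

lemma lam_L (f : ℚ[X]) : lam (L f) = lam (X * f) := by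
  induction f using Polynomial.induction_on' with
  | add p q hp hq => rw [map_add, map_add, hp, hq, mul_add, map_add]
  | monomial k c =>
    rw [← C_mul_X_pow_eq_monomial, ← smul_eq_C_mul, map_smul, map_smul, mul_smul_comm, map_smul]
    congr 1
    rw [L_apply]
    cases k with
    | zero =>
      have h1 : lam X = 0 := by simpa using lam_pow 1
      simp [h1]
    | succ k =>
      have e : (1 - X ^ 2) * derivative (X ^ (k + 1) : ℚ[X]) - X * X ^ (k + 1) =
          ((k : ℚ) + 1) • X ^ k - ((k : ℚ) + 2) • X ^ (k + 2) := by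
        rw [derivative_X_pow]
        simp only [smul_eq_C_mul, Nat.add_sub_cancel]
        push_cast
        simp only [map_add, map_one, map_ofNat]
        ring
      rw [e, ← pow_succ', map_sub, map_smul, map_smul, lam_pow, lam_pow]
      simp only [Nat.even_add, even_two, iff_true]
      split_ifs
      · have a1 : (k : ℚ) + 1 ≠ 0 := by positivity
        have a2 : (k : ℚ) + 2 + 1 ≠ 0 := by positivity
        simp only [smul_eq_mul]
        push_cast
        field_simp
        ring
      · simp

lemma F_eq (n : ℕ) : (1 + X) * ((L + 1) ^ n) 1 + (1 - X) * ((L - 1) ^ n) 1 =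
    if n = 0 then (2 : ℚ[X]) else 0 := by
  induction n with
  | zero => simp; ring
  | succ n ih =>
    have h := congrArg derivative ih
    have h0 : derivative (if n = 0 then (2 : ℚ[X]) else 0) = 0 := by split_ifs <;> simp
    rw [h0] at h
    rw [if_neg (by omega), pow_succ', pow_succ', Module.End.mul_apply, Module.End.mul_apply]
    simp only [LinearMap.add_apply, LinearMap.sub_apply, Module.End.one_apply, L_apply]
    simp only [derivative_add, derivative_mul, derivative_sub, derivative_one, derivative_X] at h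
    linear_combination (1 - X ^ 2) * h

lemma key (n : ℕ) : lam (((L + 1) ^ n) 1) - lam (((L - 1) ^ n) 1) = if n = 1 then 2 else 0 := by
  cases n with
  | zero => simp
  | succ n =>
    have h := congrArg lam (F_eq n)
    rw [pow_succ', pow_succ', Module.End.mul_apply, Module.End.mul_apply]
    simp only [LinearMap.add_apply, LinearMap.sub_apply, Module.End.one_apply, map_add, map_sub,
      lam_L]
    simp only [add_mul, sub_mul, one_mul, map_add, map_sub] at h
    have h2 : lam (if n = 0 then (2 : ℚ[X]) else 0) = if n + 1 = 1 then 2 else 0 := by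
      by_cases h0 : n = 0
      · rw [if_pos h0, if_pos (by omega), ← one_add_one_eq_two, map_add]
        have := lam_pow 0
        simp at this
        rw [this]; norm_num
      · rw [if_neg h0, if_neg (by omega), map_zero]
    rw [← h2, ← h]
    ring

lemma binom (c : ℚ) (n : ℕ) : lam (((L + c • 1) ^ n) 1) =
    ∑ m ∈ Finset.HasAntidiagonal.antidiagonal n, (n.choose m.1 : ℚ) * c ^ m.2 * lam ((L ^ m.1) 1) := by
  rw [Commute.add_pow' ((Commute.one_right L).smul_right c), LinearMap.sum_apply, map_sum]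
  refine Finset.sum_congr rfl fun m _ => ?_
  rw [_root_.smul_pow, one_pow, mul_smul_comm, mul_one, LinearMap.smul_apply, LinearMap.smul_apply,
    map_nsmul, map_smul, nsmul_eq_mul, smul_eq_mul, mul_assoc]

theorem result :
    PowerSeries.mk (fun n => if Even n then (p n).coeff (n / 2) / (n.factorial : ℚ) else 0) *
      PowerSeries.mk (fun n => if Odd n then 1 / (n.factorial : ℚ) else 0) = PowerSeries.X := by
  ext n
  have h := key n
  have h1 := binom 1 n
  have h2 := binom (-1) n
  rw [one_smul] at h1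
  rw [show L + (-1 : ℚ) • (1 : Module.End ℚ ℚ[X]) = L - 1 from
    LinearMap.ext fun f => by simp [sub_eq_add_neg]] at h2
  rw [h1, h2, ← Finset.sum_sub_distrib] at h
  have hn : (n.factorial : ℚ) ≠ 0 := by positivity
  have e : (PowerSeries.coeff n) (PowerSeries.X : PowerSeries ℚ) =
      (if n = 1 then 2 else 0) / (2 * n.factorial) := by
    rw [PowerSeries.coeff_X]
    split_ifs with h
    · simp [h]
    · simp
  rw [e, ← h, PowerSeries.coeff_mul, Finset.sum_div]
  refine Finset.sum_congr rfl fun m hm => ?_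
  have hp : p m.1 = red ((D ^ m.1) (Finsupp.single (0, -1, 0) 1)) := by
    simp only [p, red, Finsupp.linearCombination_apply, smul_eq_C_mul]
  rw [PowerSeries.coeff_mk, PowerSeries.coeff_mk, ← (iter m.1).2, link (iter m.1).1, ← hp]
  have hc : (n.choose m.1 : ℚ) * m.1.factorial * m.2.factorial = n.factorial := by
    rw [← Finset.HasAntidiagonal.mem_antidiagonal.mp hm]
    have := Nat.add_choose_mul_factorial_mul_factorial m.2 m.1
    rw [add_comm m.2, mul_right_comm] at this
    exact_mod_cast this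
  have a1 : (m.1.factorial : ℚ) ≠ 0 := by positivity
  have a2 : (m.2.factorial : ℚ) ≠ 0 := by positivity
  have a3 : (n.choose m.1 : ℚ) ≠ 0 := fun h0 => hn (by rw [← hc, h0, zero_mul, zero_mul])
  rw [← hc]
  rcases Nat.even_or_odd m.2 with h3 | h3
  · rw [if_neg (Nat.not_odd_iff_even.mpr h3), h3.neg_one_pow]; simp
  · rw [if_pos h3, h3.neg_one_pow]
    split_ifs
    · field_simp; ring
    · simp

end Pool.Agent.Results.MP_c1403d_pr.Leading
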